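import Mathlib

set_option autoImplicit false
set_option linter.unusedSectionVars false

/-!
# The automorphism group of the wreath-type blow-up of a 1-design

For a 1-design on `P` with blocks of size `k ≥ 2` and a finite index set `Δ` of size `e ≥ 2`, with
`e ≥ 3` or `k ≥ 3`, the automorphism group of the blow-up on `P × Δ` is exactly
`Aut ≀ Sym Δ` in its imprimitive action.
-/

namespace Pool.Agent.Results.MP_482303_co.WreathAutomorphisms

open Finset

/-- A 1-design: a set `B` of `k`-subsets (blocks) of the finite set `P` such that every point lies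
in exactly `r` blocks, where `r ≥ 1`. -/
def IsOneDesign {P : Type*} [DecidableEq P] (B : Finset (Finset P)) (k r : ℕ) : Prop :=
  1 ≤ r ∧ (∀ b ∈ B, b.card = k) ∧ ∀ p : P, (B.filter fun b => p ∈ b).card = r

/-- The automorphism group of a design with block set `B`: the permutations of the points which map
the block set onto itself. -/
def autGroup {X : Type*} [DecidableEq X] (B : Finset (Finset X)) : Subgroup (Equiv.Perm X) where
  carrier := {σ | B.image (fun b => b.image σ) = B}
  mul_mem' := by
    intro a b ha hb
    change B.image (fun s => s.image a) = B at ha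
    change B.image (fun s => s.image b) = B at hb
    change B.image (fun s => s.image (a * b)) = B
    conv_rhs => rw [← ha, ← hb]
    rw [image_image]
    apply image_congr
    intro s _
    simp [image_image, Function.comp_def]
  one_mem' := by
    simp
  inv_mem' := by
    intro a ha
    change B.image (fun s => s.image a) = B at ha
    change B.image (fun s => s.image (a⁻¹ : Equiv.Perm X)) = B
    conv_lhs => rw [← ha]
    rw [image_image]
    have h : (fun s : Finset X => s.image (a⁻¹ : Equiv.Perm X)) ∘ (fun s => s.image a) = id := by
      funext s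
      simp [image_image, Function.comp_def]
    rw [h]
    exact image_id

/-- The layer `j` of a subset `S` of `P × Δ`, as a subset of `P`. -/
def layer {P Δ : Type*} [Fintype P] [DecidableEq P] [DecidableEq Δ] (S : Finset (P × Δ)) (j : Δ) :
    Finset P :=
  univ.filter fun p => (p, j) ∈ S

/-- The blow-up `D(B, Δ)`: the subsets `S` of `P × Δ` such that for some `i` the layer `i` of `S` is
a block of `B`, and every other layer of `S` has exactly one point. -/
def blowup {P : Type*} (Δ : Type*) [Fintype P] [DecidableEq P] [Fintype Δ] [DecidableEq Δ]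
    (B : Finset (Finset P)) : Finset (Finset (P × Δ)) :=
  univ.filter fun S => ∃ i : Δ, layer S i ∈ B ∧ ∀ j : Δ, j ≠ i → (layer S j).card = 1

/-- The wreath product `H ≀ Sym Δ` in its imprimitive action on `P × Δ`: the permutations
`(p, j) ↦ (g j p, τ j)` with all `g j` in `H` and `τ` a permutation of `Δ`. -/
def wreath {P : Type*} (Δ : Type*) (H : Subgroup (Equiv.Perm P)) :
    Subgroup (Equiv.Perm (P × Δ)) where
  carrier := {σ | ∃ (g : Δ → Equiv.Perm P) (τ : Equiv.Perm Δ),
    (∀ j, g j ∈ H) ∧ ∀ p j, σ (p, j) = (g j p, τ j)}
  mul_mem' := by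
    rintro a b ⟨g, τ, hg, h1⟩ ⟨g', τ', hg', h2⟩
    refine ⟨fun j => g (τ' j) * g' j, τ * τ', fun j => H.mul_mem (hg _) (hg' _), fun p j => ?_⟩
    simp [Equiv.Perm.mul_apply, h1, h2]
  one_mem' := ⟨fun _ => 1, 1, fun _ => H.one_mem, fun p j => by simp⟩
  inv_mem' := by
    rintro a ⟨g, τ, hg, h1⟩
    refine ⟨fun j => (g (τ⁻¹ j))⁻¹, τ⁻¹, fun j => H.inv_mem (hg _), fun p j => ?_⟩
    rw [Equiv.Perm.inv_eq_iff_eq, h1]
    simp

section aux

variable {P Δ : Type*} [Fintype P] [DecidableEq P] [Fintype Δ] [DecidableEq Δ]

lemma mem_layer (S : Finset (P × Δ)) (j : Δ) (p : P) : p ∈ layer S j ↔ (p, j) ∈ S := by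
  simp [layer]

lemma mem_blowup (B : Finset (Finset P)) (S : Finset (P × Δ)) :
    S ∈ blowup Δ B ↔ ∃ i : Δ, layer S i ∈ B ∧ ∀ j : Δ, j ≠ i → (layer S j).card = 1 := by
  simp [blowup]

/-- The points which complete `A` to a block. -/
def link (D : Finset (Finset (P × Δ))) (A : Finset (P × Δ)) : Finset (P × Δ) :=
  univ.filter fun y => y ∉ A ∧ insert y A ∈ D

lemma mem_link (D : Finset (Finset (P × Δ))) (A : Finset (P × Δ)) (y : P × Δ) :
    y ∈ link D A ↔ y ∉ A ∧ insert y A ∈ D := by
  simp [link]

/-- The set of all points with second coordinate `j`. -/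
def slice (j : Δ) : Finset (P × Δ) := univ.filter fun y => y.2 = j

lemma mem_slice (j : Δ) (y : P × Δ) : y ∈ (slice j : Finset (P × Δ)) ↔ y.2 = j := by
  simp [slice]

lemma card_slice (j : Δ) : (slice j : Finset (P × Δ)).card = Fintype.card P := by
  have : (slice j : Finset (P × Δ)) = univ.image (fun p : P => (p, j)) := by
    ext ⟨p, i⟩
    simp [mem_slice, eq_comm]
  rw [this, card_image_of_injective]
  · rfl
  · intro p q h
    simpa using h

lemma layer_insert_same (A : Finset (P × Δ)) (p : P) (j : Δ) :
    layer (insert (p, j) A) j = insert p (layer A j) := by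
  ext q
  simp [mem_layer]

lemma layer_insert_ne (A : Finset (P × Δ)) (p : P) {i j : Δ} (h : i ≠ j) :
    layer (insert (p, j) A) i = layer A i := by
  ext q
  simp [mem_layer, h]

variable {B : Finset (Finset P)} {k r : ℕ}

/-- Every layer of a block is nonempty. -/
lemma layer_nonempty (hk : 2 ≤ k) (hB : ∀ b ∈ B, b.card = k) {S : Finset (P × Δ)}
    (hS : S ∈ blowup Δ B) (j : Δ) : (layer S j).Nonempty := by
  rw [mem_blowup] at hS
  obtain ⟨i, h1, h2⟩ := hS
  rw [← card_pos]
  by_cases h : j = i
  · subst h
    rw [hB _ h1]
    omega
  · rw [h2 j h]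
    exact one_pos

/-- If some layer of `A` is empty and `A` can be completed, then `link A` is a whole slice. -/
lemma link_of_empty (hk : 2 ≤ k) (hB : ∀ b ∈ B, b.card = k) {A : Finset (P × Δ)} {j : Δ}
    (hj : layer A j = ∅) (hne : (link (blowup Δ B) A).Nonempty) :
    link (blowup Δ B) A = slice j := by
  obtain ⟨⟨q, l⟩, hy⟩ := hne
  rw [mem_link] at hy
  have hl : j = l := by
    by_contra hl
    have h := layer_nonempty hk hB hy.2 j
    rw [layer_insert_ne A q hl, hj] at h
    simp at h
  subst hl
  obtain ⟨i, h1, h2⟩ := (mem_blowup _ _).1 hy.2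
  have hij : j ≠ i := by
    rintro rfl
    rw [layer_insert_same, hj] at h1
    have := hB _ h1
    simp at this
    omega
  ext ⟨p, l⟩
  rw [mem_link, mem_slice]
  constructor
  · rintro ⟨_, h4⟩
    by_contra hl
    have hl' : j ≠ l := fun h => hl h.symm
    have h := layer_nonempty hk hB h4 j
    rw [layer_insert_ne A p hl', hj] at h
    simp at h
  · intro hl
    simp only at hl
    subst hl
    have hnot : ∀ x : P, (x, l) ∉ A := by
      intro x hx
      have : x ∈ layer A l := (mem_layer _ _ _).2 hx
      rw [hj] at this
      simp at this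
    refine ⟨hnot p, (mem_blowup _ _).2 ⟨i, ?_, ?_⟩⟩
    · rw [layer_insert_ne A p hij.symm]
      rwa [layer_insert_ne A q hij.symm] at h1
    · intro j' hj'
      by_cases hj'' : j' = l
      · subst hj''
        rw [layer_insert_same, hj]
        simp
      · rw [layer_insert_ne A p hj'']
        have := h2 j' hj'
        rwa [layer_insert_ne A q hj''] at this

/-- If no layer of `A` is empty and `A` can be completed, then all layers of `A` but one have one
element, and the remaining one has `k - 1`. -/
lemma link_of_nonempty (hB : ∀ b ∈ B, b.card = k) {A : Finset (P × Δ)}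
    (hj : ∀ j, (layer A j).Nonempty) {q : P} {l : Δ} (hy : (q, l) ∈ link (blowup Δ B) A) :
    (layer A l).card + 1 = k ∧ insert q (layer A l) ∈ B ∧ q ∉ layer A l ∧
      ∀ j, j ≠ l → (layer A j).card = 1 := by
  rw [mem_link] at hy
  obtain ⟨i, h1, h2⟩ := (mem_blowup _ _).1 hy.2
  have hq : q ∉ layer A l := fun h => hy.1 ((mem_layer _ _ _).1 h)
  have hl : l = i := by
    by_contra hl
    have h3 := h2 l hl
    rw [layer_insert_same, card_insert_of_notMem hq] at h3
    have := card_pos.2 (hj l)
    omega
  subst hl
  rw [layer_insert_same] at h1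
  refine ⟨?_, h1, hq, ?_⟩
  · rw [← card_insert_of_notMem hq]
    exact hB _ h1
  · intro j hj'
    have := h2 j hj'
    rwa [layer_insert_ne A q hj'] at this

/-- The standard block with special layer `i` equal to `b` and the points `(f j, j)` elsewhere. -/
def stdBlock (b : Finset P) (i : Δ) (f : Δ → P) : Finset (P × Δ) :=
  univ.filter fun y => (y.2 = i ∧ y.1 ∈ b) ∨ (y.2 ≠ i ∧ y.1 = f y.2)

lemma layer_stdBlock_same (b : Finset P) (i : Δ) (f : Δ → P) : layer (stdBlock b i f) i = b := by
  ext p
  simp [mem_layer, stdBlock]

lemma layer_stdBlock_ne (b : Finset P) {i j : Δ} (h : j ≠ i) (f : Δ → P) :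
    layer (stdBlock b i f) j = {f j} := by
  ext p
  simp [mem_layer, stdBlock, h]

lemma stdBlock_mem {b : Finset P} (hb : b ∈ B) (i : Δ) (f : Δ → P) :
    stdBlock b i f ∈ blowup Δ B := by
  rw [mem_blowup]
  refine ⟨i, ?_, ?_⟩
  · rw [layer_stdBlock_same]
    exact hb
  · intro j hj
    rw [layer_stdBlock_ne b hj]
    simp

lemma link_image (D : Finset (Finset (P × Δ))) {σ : Equiv.Perm (P × Δ)}
    (hσ : ∀ S, S.image σ ∈ D ↔ S ∈ D) (A : Finset (P × Δ)) :
    link D (A.image σ) = (link D A).image σ := by
  ext y
  obtain ⟨x, rfl⟩ := σ.surjective y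
  rw [mem_link]
  have h1 : σ x ∈ A.image σ ↔ x ∈ A := by simp
  have h2 : σ x ∈ (link D A).image σ ↔ x ∈ link D A := by simp
  rw [h1, h2, mem_link, ← image_insert, hσ]

lemma mem_iff_of_aut {X : Type*} [DecidableEq X] {D : Finset (Finset X)} {σ : Equiv.Perm X}
    (hσ : σ ∈ autGroup D) (S : Finset X) : S.image σ ∈ D ↔ S ∈ D := by
  have h : D.image (fun b => b.image σ) = D := hσ
  have hinj : Function.Injective (fun b : Finset X => b.image σ) := image_injective σ.injective
  constructor
  · intro hS
    rw [← h] at hS
    obtain ⟨b, hb, hbS⟩ := mem_image.1 hS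
    rwa [← hinj hbS]
  · intro hS
    rw [← h]
    exact mem_image_of_mem _ hS

lemma aut_of_maps {X : Type*} [DecidableEq X] {D : Finset (Finset X)} {σ : Equiv.Perm X}
    (hσ : ∀ b ∈ D, b.image σ ∈ D) : σ ∈ autGroup D := by
  change D.image (fun b => b.image σ) = D
  apply eq_of_subset_of_card_le
  · intro S hS
    obtain ⟨b, hb, rfl⟩ := mem_image.1 hS
    exact hσ b hb
  · rw [card_image_of_injective _ (image_injective σ.injective)]

end aux

/-- **Theorem.** Let `B` be the block set of a 1-design on the finite set `P`, with block size
`k ≥ 2`, and let `Δ` have `e ≥ 2` elements, where `e ≥ 3` or `k ≥ 3`.  Then the automorphism group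
of the blow-up `D(B, Δ)` is `Aut(B) ≀ Sym Δ`. -/
theorem result {P Δ : Type*} [Fintype P] [DecidableEq P] [Fintype Δ] [DecidableEq Δ]
    (B : Finset (Finset P)) (k r : ℕ) (hB : IsOneDesign B k r) (hk : 2 ≤ k)
    (he : 2 ≤ Fintype.card Δ) (h : 3 ≤ Fintype.card Δ ∨ 3 ≤ k) :
    autGroup (blowup Δ B) = wreath Δ (autGroup B) := by
  classical
  obtain ⟨hr, hBk, hBr⟩ := hB
  ext σ
  constructor
  swap
  · -- wreath elements are automorphisms
    rintro ⟨g, τ, hg, hσ⟩
    apply aut_of_maps
    intro S hS
    rw [mem_blowup] at hS ⊢
    obtain ⟨i, h1, h2⟩ := hS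
    have hlay : ∀ j, layer (S.image σ) (τ j) = (layer S j).image (g j) := by
      intro j
      ext p
      rw [mem_layer, mem_image, mem_image]
      constructor
      · rintro ⟨⟨q, l⟩, hq, hql⟩
        rw [hσ] at hql
        simp only [Prod.mk.injEq, EmbeddingLike.apply_eq_iff_eq] at hql
        obtain ⟨h3, rfl⟩ := hql
        exact ⟨q, (mem_layer _ _ _).2 hq, h3⟩
      · rintro ⟨q, hq, rfl⟩
        exact ⟨(q, j), (mem_layer _ _ _).1 hq, hσ q j⟩
    refine ⟨τ i, ?_, ?_⟩
    · rw [hlay]
      exact (mem_iff_of_aut (hg i) _).2 h1
    · intro j hj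
      obtain ⟨j, rfl⟩ := τ.surjective j
      rw [hlay, card_image_of_injective _ (g j).injective]
      apply h2
      rintro rfl
      exact hj rfl
  · intro hσ0
    have hσ := mem_iff_of_aut hσ0
    rcases isEmpty_or_nonempty P with hP | ⟨⟨p0⟩⟩
    · exact ⟨fun _ => 1, 1, fun _ => (autGroup B).one_mem, fun p => (hP.false p).elim⟩
    -- a block
    obtain ⟨b0, hb0⟩ : B.Nonempty := by
      have h1 := hBr p0
      have h2 : (B.filter fun b => p0 ∈ b).Nonempty := by
        rw [← card_pos]; omega
      exact h2.mono (filter_subset _ _)
    -- slices go to slices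
    have key : ∀ j : Δ, ∃ j' : Δ, (slice j : Finset (P × Δ)).image σ = slice j' := by
      intro j
      -- a set `A` with link `slice j`
      obtain ⟨i, hij⟩ : ∃ i : Δ, i ≠ j := Fintype.exists_ne_of_one_lt_card (by omega) j
      set S := stdBlock b0 i (fun _ => p0) with hS
      have hSD : S ∈ blowup Δ B := stdBlock_mem hb0 i _
      set A := S.erase (p0, j) with hA
      have hpS : (p0, j) ∈ S := by
        rw [hS]; simp [stdBlock, hij.symm]
      have hAj : layer A j = ∅ := by
        ext p
        rw [mem_layer, hA, mem_erase]
        have : layer S j = {p0} := layer_stdBlock_ne b0 hij.symm _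
        constructor
        · rintro ⟨h1, h2⟩
          have h3 : p ∈ layer S j := (mem_layer _ _ _).2 h2
          rw [this, mem_singleton] at h3
          exact absurd (by rw [h3]) h1
        · intro h1
          simp at h1
      have hAne : (link (blowup Δ B) A).Nonempty := by
        refine ⟨(p0, j), ?_⟩
        rw [mem_link]
        refine ⟨by simp [hA], ?_⟩
        rw [hA, insert_erase hpS]
        exact hSD
      have hlinkA : link (blowup Δ B) A = slice j := link_of_empty hk hBk hAj hAne
      have hlinkσ : link (blowup Δ B) (A.image σ) = (slice j).image σ := by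
        rw [link_image _ hσ, hlinkA]
      have hne' : (link (blowup Δ B) (A.image σ)).Nonempty := by
        rw [hlinkσ, ← hlinkA]
        exact hAne.image _
      by_cases hex : ∃ j', layer (A.image σ) j' = ∅
      · obtain ⟨j', hj'⟩ := hex
        exact ⟨j', by rw [← hlinkσ]; exact link_of_empty hk hBk hj' hne'⟩
      · exfalso
        have hall : ∀ j', (layer (A.image σ) j').Nonempty := by
          intro j'
          rw [nonempty_iff_ne_empty]
          exact fun h => hex ⟨j', h⟩
        obtain ⟨⟨q, l⟩, hy⟩ := hne'
        obtain ⟨h1, h2, h3, h4⟩ := link_of_nonempty hBk hall hy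
        rcases Nat.lt_or_ge 2 k with hk3 | hk2
        · -- `k ≥ 3`: the link is too small
          have hsub : link (blowup Δ B) (A.image σ) ⊆
              (univ \ layer (A.image σ) l).image (fun p => (p, l)) := by
            rintro ⟨q', l'⟩ hy'
            obtain ⟨h5, h6, h7, h8⟩ := link_of_nonempty hBk hall hy'
            have hl : l' = l := by
              by_contra hl
              have := h4 l' hl
              omega
            subst hl
            simp only [mem_image, mem_sdiff, mem_univ, true_and, Prod.mk.injEq, and_true,
              exists_eq_right]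
            exact h7
          have hcard := card_le_card hsub
          rw [hlinkσ, card_image_of_injective _ σ.injective, card_slice,
            card_image_of_injective _ (fun a b hab => by simpa using hab), card_sdiff,
            inter_univ, card_univ] at hcard
          have h9 : (layer (A.image σ) l).card ≤ Fintype.card P := card_le_univ _
          have h10 : 0 < Fintype.card P := Fintype.card_pos_iff.2 ⟨p0⟩
          omega
        · -- `k = 2`, `e ≥ 3`: some block meets the link in at least three points
          have hk2' : k = 2 := by omega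
          subst hk2'
          have he3 : 3 ≤ Fintype.card Δ := by
            rcases h with h | h
            · exact h
            · omega
          -- each block meets `slice j` in at most two points
          have hle : ∀ T ∈ blowup Δ B, (T ∩ link (blowup Δ B) (A.image σ)).card ≤ 2 := by
            intro T hT
            obtain ⟨T, rfl⟩ : ∃ T' : Finset (P × Δ), T'.image σ = T := by
              refine ⟨T.image σ.symm, ?_⟩
              rw [image_image]
              simp
            rw [hσ] at hT
            rw [hlinkσ, ← image_inter _ _ σ.injective, card_image_of_injective _ σ.injective]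
            have h5 : T ∩ slice j = (layer T j).image (fun p => (p, j)) := by
              ext ⟨p, l⟩
              simp only [mem_inter, mem_slice, mem_image, mem_layer, Prod.mk.injEq]
              constructor
              · rintro ⟨h5, rfl⟩
                exact ⟨p, h5, rfl, rfl⟩
              · rintro ⟨p', h5, rfl, rfl⟩
                exact ⟨h5, rfl⟩
            rw [h5]
            refine card_image_le.trans ?_
            obtain ⟨i', h6, h7⟩ := (mem_blowup _ _).1 hT
            by_cases h8 : j = i'
            · subst h8
              rw [hBk _ h6]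
            · rw [h7 j h8]
              omega
          -- all layers of `A.image σ` are singletons
          have hone : ∀ l', ∃ p, layer (A.image σ) l' = {p} := by
            intro l'
            rw [← card_eq_one]
            by_cases hl : l' = l
            · subst hl; omega
            · exact h4 l' hl
          choose f hf using hone
          -- each point has a neighbour
          have hnb : ∀ p : P, ∃ q, q ≠ p ∧ ({q, p} : Finset P) ∈ B := by
            intro p
            have h5 := hBr p
            obtain ⟨b, hb⟩ : (B.filter fun b => p ∈ b).Nonempty := by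
              rw [← card_pos]; omega
            rw [mem_filter] at hb
            obtain ⟨x, y, hxy, hbxy⟩ := card_eq_two.1 (hBk b hb.1)
            rw [hbxy] at hb
            simp only [mem_insert, mem_singleton] at hb
            rcases hb.2 with rfl | rfl
            · exact ⟨y, hxy.symm, by rw [pair_comm]; exact hb.1⟩
            · exact ⟨x, hxy, hb.1⟩
          choose n hn1 hn2 using hnb
          -- membership in the link
          have hmem : ∀ l', (n (f l'), l') ∈ link (blowup Δ B) (A.image σ) := by
            intro l'
            rw [mem_link]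
            have h5 : n (f l') ∉ layer (A.image σ) l' := by
              rw [hf l', mem_singleton]
              exact hn1 _
            refine ⟨fun h6 => h5 ((mem_layer _ _ _).2 h6), (mem_blowup _ _).2 ⟨l', ?_, ?_⟩⟩
            · rw [layer_insert_same, hf l']
              exact hn2 _
            · intro j' hj'
              rw [layer_insert_ne _ _ hj', hf j', card_singleton]
          -- the block
          have hT : stdBlock {n (f l), f l} l (fun l' => n (f l')) ∈ blowup Δ B :=
            stdBlock_mem (hn2 _) l _
          have h5 := hle _ hT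
          have h6 : univ.image (fun l' : Δ => (n (f l'), l')) ⊆
              stdBlock {n (f l), f l} l (fun l' => n (f l')) ∩
                link (blowup Δ B) (A.image σ) := by
            intro y hy'
            obtain ⟨l', _, rfl⟩ := mem_image.1 hy'
            rw [mem_inter]
            refine ⟨?_, hmem l'⟩
            simp only [stdBlock, mem_filter, mem_univ, true_and, mem_insert, mem_singleton]
            by_cases hl : l' = l
            · subst hl; simp
            · simp [hl]
          have h7 := card_le_card h6
          rw [card_image_of_injective _ (fun a b hab => by simpa using (Prod.ext_iff.1 hab).2),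
            card_univ] at h7
          omega
    choose τ0 hτ0 using key
    have hσ2 : ∀ p j, (σ (p, j)).2 = τ0 j := by
      intro p j
      have h1 : σ (p, j) ∈ (slice j : Finset (P × Δ)).image σ :=
        mem_image_of_mem _ ((mem_slice _ _).2 rfl)
      rw [hτ0] at h1
      exact (mem_slice _ _).1 h1
    have hτinj : Function.Injective τ0 := by
      intro i j hij
      have h1 := hτ0 i
      rw [hij, ← hτ0 j] at h1
      have h2 := image_injective σ.injective h1
      have h3 : (p0, i) ∈ (slice j : Finset (P × Δ)) := by
        rw [← h2]; exact (mem_slice _ _).2 rfl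
      exact (mem_slice _ _).1 h3
    have hginj : ∀ j, Function.Injective (fun p => (σ (p, j)).1) := by
      intro j p q hpq
      have h1 : σ (p, j) = σ (q, j) := Prod.ext hpq (by rw [hσ2, hσ2])
      have h2 := σ.injective h1
      simpa using h2
    refine ⟨fun j => Equiv.ofBijective _ (Finite.injective_iff_bijective.1 (hginj j)),
      Equiv.ofBijective _ (Finite.injective_iff_bijective.1 hτinj), ?_, ?_⟩
    · intro j
      apply aut_of_maps
      intro b hb
      have hT : stdBlock b j (fun _ => p0) ∈ blowup Δ B := stdBlock_mem hb j _
      rw [← hσ] at hT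
      have hlay : layer ((stdBlock b j (fun _ => p0)).image σ) (τ0 j) =
          b.image (fun p => (σ (p, j)).1) := by
        ext p
        rw [mem_layer, mem_image, mem_image]
        constructor
        · rintro ⟨⟨q, l⟩, hq, hql⟩
          have hl : l = j := by
            apply hτinj
            rw [← hσ2 q l, hql]
          subst hl
          refine ⟨q, ?_, by rw [hql]⟩
          have : q ∈ layer (stdBlock b l (fun _ => p0)) l := (mem_layer _ _ _).2 hq
          rwa [layer_stdBlock_same] at this
        · rintro ⟨q, hq, rfl⟩
          refine ⟨(q, j), ?_, Prod.ext rfl (hσ2 q j)⟩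
          rw [← mem_layer, layer_stdBlock_same]
          exact hq
      obtain ⟨i, h1, h2⟩ := (mem_blowup _ _).1 hT
      by_cases hi : τ0 j = i
      · rw [← hi, hlay] at h1
        exact h1
      · exfalso
        have h3 := h2 _ hi
        rw [hlay, card_image_of_injective _ (hginj j), hBk b hb] at h3
        omega
    · intro p j
      exact Prod.ext rfl (hσ2 p j)

end Pool.Agent.Results.MP_482303_co.WreathAutomorphisms
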